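import Pool.Agent.Q222.TN.Block
import Pool.Agent.Q222.TN.Chain
import Pool.Agent.Q222.TN.Lower

namespace Pool.Agent.Results.MP_48fb2a_lc.Unbounded

open Q222.TN

theorem names {σ : Type} {a b : σ} (hab : a ≠ b) (I : Type) [Fintype I] (k : ℕ)
    (h : Fintype.card I ≤ 2 ^ k) :
    ∃ μ : I → List σ, Function.Injective μ ∧ ∀ i, (μ i).length = k := by
  classical
  have hc : Fintype.card I ≤ Fintype.card (Fin k → Bool) := by
    simpa using h
  obtain ⟨f⟩ := Function.Embedding.nonempty_of_card_le hc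
  refine ⟨fun i => List.ofFn (fun t => if f i t then a else b), ?_, fun i => by simp⟩
  intro i j hij
  apply f.injective
  have := List.ofFn_injective hij
  funext t
  have ht := congrFun this t
  rcases h1 : f i t with _ | _ <;> rcases h2 : f j t with _ | _
  · rfl
  · simp [h1, h2] at ht; exact absurd ht.symm hab
  · simp [h1, h2] at ht; exact absurd ht hab
  · rfl

/-- **Main theorem.** Over every alphabet with at least two letters the ratio `T(L) / nsc(L)` is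
unbounded on regular languages. -/
theorem result (σ : Type) [Nontrivial σ] (C : ℕ) :
    ∃ L : Language σ, L.IsRegular ∧ C * nsc L < minT L := by
  classical
  obtain ⟨a, b, hab⟩ := exists_pair_ne σ
  obtain ⟨K, hK⟩ : ∃ K, K = 291 * C + 32 := ⟨_, rfl⟩
  obtain ⟨r, hr⟩ : ∃ r, r = 4 * K := ⟨_, rfl⟩
  obtain ⟨p, hp, hp1, hp2⟩ := Nat.exists_prime_lt_and_le_two_mul (2 ^ r) (by positivity)
  haveI : Fact p.Prime := ⟨hp⟩
  have hbig : K * (r + 1) < p := by
    refine lt_trans ?_ hp1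
    have h1 : 2 * K + 1 ≤ 2 ^ (2 * K) := Nat.lt_two_pow_self
    calc K * (r + 1) < (2 * K + 1) * (2 * K + 1) := by rw [hr]; nlinarith
      _ ≤ 2 ^ (2 * K) * 2 ^ (2 * K) := Nat.mul_le_mul h1 h1
      _ = 2 ^ r := by rw [← pow_add, hr]; congr 1; ring
  have hp0 : 2 ≤ p := hp.two_le
  have hsize : 3 * p ^ 6 ≤ 2 ^ (8 * r + 8) := by
    have h1 : p ^ 8 ≤ (2 * 2 ^ r) ^ 8 := Nat.pow_le_pow_left hp2 8
    have h2 : (2 * 2 ^ r) ^ 8 = 2 ^ (8 * r + 8) := by
      rw [← pow_succ', ← pow_mul]; congr 1; ring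
    have h3 : 3 * p ^ 6 ≤ p ^ 8 := by
      calc 3 * p ^ 6 ≤ p ^ 2 * p ^ 6 := Nat.mul_le_mul_right _ (by nlinarith)
        _ = p ^ 8 := by ring
    omega
  obtain ⟨μ, hμ, hμl⟩ := names hab (LP (ZMod p)) (8 * r + 8) (by rw [card_LP]; exact hsize)
  obtain ⟨ν, hν, hνl⟩ := names hab (RP (ZMod p)) (8 * r + 8) (by rw [card_RP]; exact hsize)
  let L : Language σ := {w | ∃ x h y, w = W μ ν (lp (F := ZMod p) x h) (rp y h)}
  have hPl : ∀ i, (μ i ++ μ i).length = (16 * r + 15) + 1 := by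
    intro i; rw [List.length_append, hμl]; omega
  have hQl : ∀ j, (ν j ++ ν j).length = (16 * r + 15) + 1 := by
    intro i; rw [List.length_append, hνl]; omega
  -- the automaton with the blocks as hubs
  have hB : ∃ n t, Recog L n t ∧ t ≤ 6 * p ^ 7 + 96 * (r + 1) * p ^ 6 := by
    let A := chainNFA (m := 16 * r + 15) (fun i => μ i ++ μ i) (fun j => ν j ++ ν j) hPl hQl
      (EL := Fin 3 × Blk (ZMod p)) (ER := Fin 3 × Blk (ZMod p)) (G := Blk (ZMod p))
      (fun e => lp e.1 e.2) (fun e => e.2) (fun e => e.2) (fun e => rp e.1 e.2)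
    refine ⟨_, _, ⟨_, inferInstance, A, rfl, rfl, ?_⟩, ?_⟩
    · ext w
      refine (chain_lang _ _ hPl hQl _ _ _ _ (by omega) w).trans ?_
      constructor
      · rintro ⟨⟨x, h⟩, ⟨y, h'⟩, e1, e2⟩
        simp only at e1 e2
        subst e1
        exact ⟨x, h, y, e2⟩
      · rintro ⟨x, h, y, e⟩
        exact ⟨(x, h), (y, h), rfl, e⟩
    · refine le_trans (chain_card _ _ hPl hQl _ _ _ _) ?_
      rw [card_LP, card_RP, Fintype.card_prod, card_Blk, Fintype.card_fin]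
      nlinarith [Nat.zero_le (p ^ 6)]
  -- the automaton with the left points as hubs
  have hS : ∃ n t, Recog L n t ∧ n ≤ 96 * (r + 1) * p ^ 6 + 1 := by
    let A := chainNFA (m := 16 * r + 15) (fun i => μ i ++ μ i) (fun j => ν j ++ ν j) hPl hQl
      (EL := LP (ZMod p)) (ER := Fin 3 × Fin 3 × Blk (ZMod p)) (G := LP (ZMod p))
      (fun e => e) (fun e => e) (fun e => lp e.1 e.2.2) (fun e => rp e.2.1 e.2.2)
    refine ⟨_, _, ⟨_, inferInstance, A, rfl, rfl, ?_⟩, ?_⟩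
    · ext w
      refine (chain_lang _ _ hPl hQl _ _ _ _ (by omega) w).trans ?_
      constructor
      · rintro ⟨i, ⟨x, y, h⟩, e1, e2⟩
        simp only at e1 e2
        subst e1
        exact ⟨x, h, y, e2⟩
      · rintro ⟨x, h, y, e⟩
        exact ⟨lp x h, (x, y, h), rfl, e⟩
    · rw [card_St, card_LP, card_RP]
      have : 1 ≤ p ^ 6 := Nat.one_le_pow _ _ (by omega)
      nlinarith
  obtain ⟨n1, t1, hR1, ht1⟩ := hB
  obtain ⟨n2, t2, hR2, hn2⟩ := hS
  have hreg : L.IsRegular := by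
    obtain ⟨Q, _, A, -, -, hA⟩ := hR1
    rw [← hA]
    exact A.isRegular
  have htc : tc L ≤ 6 * p ^ 7 + 96 * (r + 1) * p ^ 6 := le_trans (Nat.sInf_le ⟨n1, hR1⟩) ht1
  have hnsc : nsc L ≤ 96 * (r + 1) * p ^ 6 + 1 := le_trans (Nat.sInf_le ⟨t2, hR2⟩) hn2
  have hmem : tc L ∈ {t | ∃ n, Recog L n t} := Nat.sInf_mem ⟨t1, n1, hR1⟩
  obtain ⟨n3, hR3⟩ := hmem
  have hT : Recog L (minT L) (tc L) := Nat.sInf_mem (s := {n | Recog L n (tc L)}) ⟨n3, hR3⟩
  obtain ⟨Q, _, A, hQ, hAt, hAl⟩ := hT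
  have hlow := lower (lp (F := ZMod p)) (rp (F := ZMod p)) hμl hνl A
    (fun w => by rw [hAl]; rfl) hμ hν
    (fun x x' y y' h h' => uniq)
    (fun x1 x2 x1' x2' y1 y2 y1' y2' h11 h12 h21 h22 => rect) (by omega)
  rw [card_Blk, hQ, hAt] at hlow
  refine ⟨L, hreg, ?_⟩
  by_contra hcon
  push Not at hcon
  have h1 : minT L ≤ C * (96 * (r + 1) * p ^ 6 + 1) := le_trans hcon (Nat.mul_le_mul_left _ hnsc)
  have hp6 : 1 ≤ p ^ 6 := Nat.one_le_pow _ _ (by omega)
  have h2 : 3 * p ^ 7 ≤ (864 * C * (r + 1) + 9 * C + 96 * (r + 1)) * p ^ 6 := by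
    have : C ≤ C * p ^ 6 := Nat.le_mul_of_pos_right _ (by omega)
    nlinarith
  have h3 : 3 * p ≤ 864 * C * (r + 1) + 9 * C + 96 * (r + 1) := by
    apply Nat.le_of_mul_le_mul_right _ (show 0 < p ^ 6 by omega)
    calc 3 * p * p ^ 6 = 3 * p ^ 7 := by ring
      _ ≤ _ := h2
  have h4 : 864 * C * (r + 1) + 9 * C + 96 * (r + 1) ≤ 3 * (K * (r + 1)) := by
    rw [hK]
    nlinarith [Nat.zero_le (C * r), Nat.zero_le r]
  omega

end Pool.Agent.Results.MP_48fb2a_lc.Unbounded
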